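import Pool.Agent.Helper33.KV.GoalsF2
import Pool.Agent.Helper26.KV.HInfAlg

/-!
# Project KV: continuity in time of the quantities of the bootstrap
-/

namespace Pool.Agent.Helper16.KV

open Real MeasureTheory Set Filter Topology
open Pool.Agent.Helper33.KV Pool.Agent.Helper41.KV
open Pool.Agent.Helper26.KV (HInf_wflux HInf_deriv)

/-- Continuity in time with values in `L^2`. -/
structure C2 (f : ℝ → ℝ → ℝ) (I : Set ℝ) : Prop where
  mem : ∀ t ∈ I, MemLp (f t) 2
  lim : ∀ s ∈ I, Tendsto (fun t => ∫ y, (f t y - f s y) ^ 2) (𝓝[I] s) (𝓝 0)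

theorem C2.congr {f g : ℝ → ℝ → ℝ} {I : Set ℝ} (hf : C2 f I) (h : ∀ t ∈ I, g t = f t) : C2 g I := by
  refine ⟨fun t ht => by rw [h t ht]; exact hf.mem t ht, fun s hs => ?_⟩
  refine (hf.lim s hs).congr' ?_
  filter_upwards [self_mem_nhdsWithin] with t ht
  rw [h t ht, h s hs]

theorem C2.const {g : ℝ → ℝ} {I : Set ℝ} (hg : MemLp g 2) : C2 (fun _ => g) I := by
  refine ⟨fun _ _ => hg, fun s _ => ?_⟩
  simp only [sub_self, ne_eq, OfNat.ofNat_ne_zero, not_false_eq_true, zero_pow, integral_zero]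
  exact tendsto_const_nhds

theorem C2.add {f g : ℝ → ℝ → ℝ} {I : Set ℝ} (hf : C2 f I) (hg : C2 g I) :
    C2 (fun t y => f t y + g t y) I := by
  refine ⟨fun t ht => (hf.mem t ht).add (hg.mem t ht), fun s hs => ?_⟩
  have h := ((hf.lim s hs).const_mul 2).add ((hg.lim s hs).const_mul 2)
  rw [mul_zero, add_zero] at h
  refine squeeze_zero' (Eventually.of_forall fun t => integral_nonneg fun y => sq_nonneg _) ?_ h
  filter_upwards [self_mem_nhdsWithin] with t ht
  have i1 := ((hf.mem t ht).sub (hf.mem s hs)).integrable_sq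
  have i2 := ((hg.mem t ht).sub (hg.mem s hs)).integrable_sq
  simp only [Pi.sub_apply] at i1 i2
  rw [← integral_const_mul, ← integral_const_mul, ← integral_add (i1.const_mul 2) (i2.const_mul 2)]
  refine integral_mono_of_nonneg (Eventually.of_forall fun y => sq_nonneg _)
    ((i1.const_mul 2).add (i2.const_mul 2)) (Eventually.of_forall fun y => ?_)
  simp only
  nlinarith [sq_nonneg ((f t y - f s y) - (g t y - g s y))]

theorem C2.smul {f : ℝ → ℝ → ℝ} {c : ℝ → ℝ} {I : Set ℝ} (hf : C2 f I) (hc : ContinuousOn c I) :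
    C2 (fun t y => c t * f t y) I := by
  refine ⟨fun t ht => (hf.mem t ht).const_mul _, fun s hs => ?_⟩
  have hcs : Tendsto c (𝓝[I] s) (𝓝 (c s)) := hc s hs
  have h := (((hcs.pow 2).const_mul 2).mul (hf.lim s hs)).add
    ((((hcs.sub_const (c s)).pow 2).const_mul 2).mul_const (∫ y, f s y ^ 2))
  have e : 2 * c s ^ 2 * 0 + 2 * (c s - c s) ^ 2 * (∫ y, f s y ^ 2) = 0 := by
    rw [sub_self]
    ring
  rw [e] at h
  refine squeeze_zero' (Eventually.of_forall fun t => integral_nonneg fun y => sq_nonneg _) ?_ h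
  filter_upwards [self_mem_nhdsWithin] with t ht
  have i1 := ((hf.mem t ht).sub (hf.mem s hs)).integrable_sq
  have i2 := (hf.mem s hs).integrable_sq
  simp only [Pi.sub_apply] at i1
  rw [← integral_const_mul, ← integral_const_mul,
    ← integral_add (i1.const_mul _) (i2.const_mul _)]
  refine integral_mono_of_nonneg (Eventually.of_forall fun y => sq_nonneg _)
    ((i1.const_mul _).add (i2.const_mul _)) (Eventually.of_forall fun y => ?_)
  simp only
  nlinarith [sq_nonneg (c t * (f t y - f s y) - (c t - c s) * f s y)]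

theorem C2.sub {f g : ℝ → ℝ → ℝ} {I : Set ℝ} (hf : C2 f I) (hg : C2 g I) :
    C2 (fun t y => f t y - g t y) I := by
  refine (hf.add (hg.smul (c := fun _ => -1) continuousOn_const)).congr fun t _ => ?_
  funext y
  ring

theorem C2.bdd {f w : ℝ → ℝ → ℝ} {I : Set ℝ} (hf : C2 f I) (hw : ∀ t ∈ I, Continuous (w t))
    (hb : ∀ t ∈ I, ∀ y, |w t y| ≤ 1)
    (hl : ∀ s ∈ I, ∀ y, Tendsto (fun t => w t y) (𝓝[I] s) (𝓝 (w s y))) :
    C2 (fun t y => w t y * f t y) I := by
  have hm : ∀ t ∈ I, ∀ g : ℝ → ℝ, MemLp g 2 → MemLp (fun y => w t y * g y) 2 := by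
    intro t ht g hg
    exact Pool.Agent.Helper26.KV.memLp_mul_bdd (hw t ht) (hb t ht) hg
  refine ⟨fun t ht => hm t ht _ (hf.mem t ht), fun s hs => ?_⟩
  have h2 : Tendsto (fun t => ∫ y, ((w t y - w s y) * f s y) ^ 2) (𝓝[I] s) (𝓝 0) := by
    have e0 : (0 : ℝ) = ∫ y : ℝ, (0 : ℝ) := by simp
    rw [e0]
    refine tendsto_integral_filter_of_dominated_convergence (fun y => 4 * f s y ^ 2) ?_ ?_ ?_ ?_
    · filter_upwards [self_mem_nhdsWithin] with t ht
      exact ((((hw t ht).sub (hw s hs)).aestronglyMeasurable).mul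
        (hf.mem s hs).aestronglyMeasurable).pow 2
    · filter_upwards [self_mem_nhdsWithin] with t ht
      refine Eventually.of_forall fun y => ?_
      rw [Real.norm_eq_abs, abs_of_nonneg (sq_nonneg _), mul_pow]
      refine mul_le_mul_of_nonneg_right ?_ (sq_nonneg _)
      have h1 := abs_le.1 (hb t ht y)
      have h2 := abs_le.1 (hb s hs y)
      nlinarith
    · exact (hf.mem s hs).integrable_sq.const_mul 4
    · refine Eventually.of_forall fun y => ?_
      have := ((((hl s hs y).sub_const (w s y)).mul_const (f s y)).pow 2)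
      simpa using this
  have h := ((hf.lim s hs).const_mul 2).add (h2.const_mul 2)
  rw [mul_zero, add_zero] at h
  refine squeeze_zero' (Eventually.of_forall fun t => integral_nonneg fun y => sq_nonneg _) ?_ h
  filter_upwards [self_mem_nhdsWithin] with t ht
  have i1 := ((hf.mem t ht).sub (hf.mem s hs)).integrable_sq
  have i2 := ((hm t ht _ (hf.mem s hs)).sub (hm s hs _ (hf.mem s hs))).integrable_sq
  simp only [Pi.sub_apply] at i1 i2
  have i3 : Integrable (fun y => ((w t y - w s y) * f s y) ^ 2) := by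
    refine i2.congr (Eventually.of_forall fun y => ?_)
    simp only
    ring
  rw [← integral_const_mul, ← integral_const_mul, ← integral_add (i1.const_mul 2) (i3.const_mul 2)]
  refine integral_mono_of_nonneg (Eventually.of_forall fun y => sq_nonneg _)
    ((i1.const_mul 2).add (i3.const_mul 2)) (Eventually.of_forall fun y => ?_)
  simp only
  have hw2 : w t y ^ 2 ≤ 1 := by
    have := abs_le.1 (hb t ht y)
    nlinarith
  have h5 : (w t y * f t y - w s y * f s y) ^ 2 ≤
      2 * (w t y ^ 2 * (f t y - f s y) ^ 2) + 2 * ((w t y - w s y) * f s y) ^ 2 := by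
    nlinarith [sq_nonneg (w t y * (f t y - f s y) - (w t y - w s y) * f s y)]
  have h6 : w t y ^ 2 * (f t y - f s y) ^ 2 ≤ (f t y - f s y) ^ 2 := by
    nlinarith [sq_nonneg (f t y - f s y)]
  linarith

/-- Cauchy-Schwarz. -/
theorem cs {f g : ℝ → ℝ} (hf : MemLp f 2) (hg : MemLp g 2) :
    |∫ y, f y * g y| ≤ Real.sqrt ((∫ y, f y ^ 2) * ∫ y, g y ^ 2) := by
  have i1 := hf.integrable_sq
  have i2 := hg.integrable_sq
  have i3 : Integrable (fun y => f y * g y) := hf.integrable_mul hg
  refine Real.abs_le_sqrt ?_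
  have h : ∀ r : ℝ, 0 ≤ (∫ y, g y ^ 2) * (r * r) + (-2 * ∫ y, f y * g y) * r + ∫ y, f y ^ 2 := by
    intro r
    have e : (∫ y, g y ^ 2) * (r * r) + (-2 * ∫ y, f y * g y) * r + ∫ y, f y ^ 2
        = ∫ y, (f y - r * g y) ^ 2 := by
      have e1 : ∀ y, (f y - r * g y) ^ 2 = (r * r) * g y ^ 2 + (-2 * r) * (f y * g y) + f y ^ 2 := by
        intro y
        ring
      simp only [e1]
      have j1 : Integrable (fun y => (r * r) * g y ^ 2 + (-2 * r) * (f y * g y)) :=
        (i2.const_mul _).add (i3.const_mul _)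
      rw [integral_add j1 i1,
        integral_add (i2.const_mul _) (i3.const_mul _), integral_const_mul, integral_const_mul]
      ring
    rw [e]
    exact integral_nonneg fun y => sq_nonneg _
  have h2 := discrim_le_zero h
  unfold discrim at h2
  nlinarith

theorem C2.bilin {f g : ℝ → ℝ → ℝ} {I : Set ℝ} (hf : C2 f I) (hg : C2 g I) :
    ContinuousOn (fun t => ∫ y, f t y * g t y) I := by
  intro s hs
  have hF := hf.lim s hs
  have hG := hg.lim s hs
  have hsq : ∀ {A : ℝ → ℝ} {a : ℝ}, Tendsto A (𝓝[I] s) (𝓝 a) →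
      Tendsto (fun t => Real.sqrt (A t)) (𝓝[I] s) (𝓝 (Real.sqrt a)) := fun h => h.sqrt
  have h := ((hsq (hF.mul hG)).add (hsq (hF.mul_const (∫ y, g s y ^ 2)))).add
    (hsq (hG.const_mul (∫ y, f s y ^ 2)))
  simp only [mul_zero, zero_mul, Real.sqrt_zero, add_zero] at h
  rw [ContinuousWithinAt, tendsto_iff_norm_sub_tendsto_zero]
  refine squeeze_zero' (Eventually.of_forall fun t => norm_nonneg _) ?_ h
  filter_upwards [self_mem_nhdsWithin] with t ht
  have m1 := (hf.mem t ht).sub (hf.mem s hs)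
  have m2 := (hg.mem t ht).sub (hg.mem s hs)
  have c1 := cs m1 m2
  have c2 := cs m1 (hg.mem s hs)
  have c3 := cs (hf.mem s hs) m2
  have i1 : Integrable (fun y => (f t y - f s y) * (g t y - g s y)) := m1.integrable_mul m2
  have i2 : Integrable (fun y => (f t y - f s y) * g s y) := m1.integrable_mul (hg.mem s hs)
  have i3 : Integrable (fun y => f s y * (g t y - g s y)) := (hf.mem s hs).integrable_mul m2
  have i4 : Integrable (fun y => f t y * g t y) := (hf.mem t ht).integrable_mul (hg.mem t ht)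
  have i5 : Integrable (fun y => f s y * g s y) := (hf.mem s hs).integrable_mul (hg.mem s hs)
  have e : (∫ y, f t y * g t y) - ∫ y, f s y * g s y =
      (∫ y, (f t y - f s y) * (g t y - g s y)) + (∫ y, (f t y - f s y) * g s y)
        + ∫ y, f s y * (g t y - g s y) := by
    have i12 : Integrable (fun y => (f t y - f s y) * (g t y - g s y)
        + (f t y - f s y) * g s y) := i1.add i2
    rw [← integral_sub i4 i5, ← integral_add i1 i2, ← integral_add i12 i3]
    refine integral_congr_ae (Eventually.of_forall fun y => ?_)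
    simp only
    ring
  rw [e, Real.norm_eq_abs]
  simp only [Pi.sub_apply] at c1 c2 c3
  refine (abs_add_le _ _).trans (add_le_add ((abs_add_le _ _).trans (add_le_add c1 c2)) ?_)
  exact c3

theorem C2.sq {f : ℝ → ℝ → ℝ} {I : Set ℝ} (hf : C2 f I) :
    ContinuousOn (fun t => ∫ y, f t y ^ 2) I := by
  refine (hf.bilin hf).congr fun t _ => ?_
  refine integral_congr_ae (Eventually.of_forall fun y => ?_)
  simp only
  ring

/-- pointwise convergence and conservation of the norm imply convergence in the mean -/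
theorem riesz {s : ℝ} {I : Set ℝ} {F : ℝ → ℝ → ℝ} (hc : ∀ t, Continuous (F t))
    (hF : ∀ t ∈ I, MemLp (F t) 2) (hs : s ∈ I)
    (hp : ∀ y, Tendsto (fun t => F t y) (𝓝[I] s) (𝓝 (F s y)))
    (hn : ∀ t ∈ I, ∫ y, F t y ^ 2 = ∫ y, F s y ^ 2) :
    Tendsto (fun t => ∫ y, (F t y - F s y) ^ 2) (𝓝[I] s) (𝓝 0) := by
  have : (𝓝[I] s).NeBot := mem_closure_iff_nhdsWithin_neBot.1 (subset_closure hs)
  set N : ℝ := ∫ y, F s y ^ 2 with hN
  have hN0 : 0 ≤ N := integral_nonneg fun y => sq_nonneg _
  have is := (hF s hs).integrable_sq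
  have hid : ∀ t ∈ I, Integrable (fun y => (F t y - F s y) ^ 2) := fun t ht =>
    ((hF t ht).sub (hF s hs)).integrable_sq
  have hnn : ∀ t y, 0 ≤ 2 * F t y ^ 2 + 2 * F s y ^ 2 - (F t y - F s y) ^ 2 := by
    intro t y
    nlinarith [sq_nonneg (F t y + F s y)]
  have hint : ∀ t ∈ I, ∫⁻ y, ENNReal.ofReal (2 * F t y ^ 2 + 2 * F s y ^ 2 - (F t y - F s y) ^ 2)
      = ENNReal.ofReal (4 * N - ∫ y, (F t y - F s y) ^ 2) := by
    intro t ht
    have it := (hF t ht).integrable_sq
    have j1 : Integrable (fun y => 2 * F t y ^ 2 + 2 * F s y ^ 2) :=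
      (it.const_mul 2).add (is.const_mul 2)
    have j2 : Integrable (fun y => 2 * F t y ^ 2 + 2 * F s y ^ 2 - (F t y - F s y) ^ 2) :=
      j1.sub (hid t ht)
    rw [← ofReal_integral_eq_lintegral_ofReal j2 (Eventually.of_forall fun y => hnn t y)]
    congr 1
    rw [integral_sub j1 (hid t ht),
      integral_add (it.const_mul 2) (is.const_mul 2), integral_const_mul, integral_const_mul,
      hn t ht]
    ring
  have hbd : ∀ t ∈ I, (∫ y, (F t y - F s y) ^ 2) ≤ 4 * N := by
    intro t ht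
    have it := (hF t ht).integrable_sq
    have e : 2 * (∫ y, F t y ^ 2) + 2 * (∫ y, F s y ^ 2) = 4 * N := by
      rw [hn t ht]
      ring
    rw [← e, ← integral_const_mul, ← integral_const_mul,
      ← integral_add (it.const_mul 2) (is.const_mul 2)]
    refine integral_mono (hid t ht) ((it.const_mul 2).add (is.const_mul 2)) fun y => ?_
    have := hnn t y
    simp only
    linarith
  have key : ENNReal.ofReal (4 * N) ≤ liminf (fun t => ∫⁻ y, ENNReal.ofReal
      (2 * F t y ^ 2 + 2 * F s y ^ 2 - (F t y - F s y) ^ 2)) (𝓝[I] s) := by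
    have h1 : ENNReal.ofReal (4 * N) = ∫⁻ y, liminf (fun t => ENNReal.ofReal
        (2 * F t y ^ 2 + 2 * F s y ^ 2 - (F t y - F s y) ^ 2)) (𝓝[I] s) := by
      have h2 : ∀ y, liminf (fun t => ENNReal.ofReal
          (2 * F t y ^ 2 + 2 * F s y ^ 2 - (F t y - F s y) ^ 2)) (𝓝[I] s)
          = ENNReal.ofReal (4 * F s y ^ 2) := by
        intro y
        refine Tendsto.liminf_eq ?_
        refine (ENNReal.continuous_ofReal.tendsto _).comp ?_
        have h3 := (((hp y).pow 2).const_mul 2).add_const (2 * F s y ^ 2)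
        have h4 := h3.sub (((hp y).sub_const (F s y)).pow 2)
        have e : 2 * F s y ^ 2 + 2 * F s y ^ 2 - (F s y - F s y) ^ 2 = 4 * F s y ^ 2 := by ring
        rw [e] at h4
        exact h4
      simp only [h2]
      rw [← ofReal_integral_eq_lintegral_ofReal (is.const_mul 4)
        (Eventually.of_forall fun y => by positivity), integral_const_mul]
    rw [h1]
    refine lintegral_liminf_le' fun t => ?_
    have : Continuous (fun y => 2 * F t y ^ 2 + 2 * F s y ^ 2 - (F t y - F s y) ^ 2) :=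
      ((((hc t).pow 2).const_mul 2).add (((hc s).pow 2).const_mul 2)).sub
        (((hc t).sub (hc s)).pow 2)
    exact this.measurable.ennreal_ofReal.aemeasurable
  rw [Metric.tendsto_nhds]
  intro ε hε
  rcases hN0.eq_or_lt with h0 | h0
  · filter_upwards [self_mem_nhdsWithin] with t ht
    have h1 := hbd t ht
    rw [← h0, mul_zero] at h1
    have h2 : 0 ≤ ∫ y, (F t y - F s y) ^ 2 := integral_nonneg fun y => sq_nonneg _
    rw [Real.dist_eq, sub_zero, abs_of_nonneg h2]
    linarith
  · have h1 : ENNReal.ofReal (4 * N - ε) < ENNReal.ofReal (4 * N) := by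
      rw [ENNReal.ofReal_lt_ofReal_iff (by linarith)]
      linarith
    have h2 := eventually_lt_of_lt_liminf (lt_of_lt_of_le h1 key)
    filter_upwards [self_mem_nhdsWithin, h2] with t ht h3
    rw [hint t ht, ENNReal.ofReal_lt_ofReal_iff'] at h3
    have h4 : 0 ≤ ∫ y, (F t y - F s y) ^ 2 := integral_nonneg fun y => sq_nonneg _
    rw [Real.dist_eq, sub_zero, abs_of_nonneg h4]
    linarith [h3.1]

/-- Cauchy-Schwarz in time -/
theorem cs_time {h : ℝ → ℝ} {a b : ℝ} (hab : a < b) (hh : ContinuousOn h (Icc a b)) :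
    (∫ τ in a..b, h τ) ^ 2 ≤ (b - a) * ∫ τ in a..b, h τ ^ 2 := by
  have hu : uIcc a b = Icc a b := uIcc_of_le hab.le
  have i1 : IntervalIntegrable h volume a b := (by rw [hu]; exact hh : ContinuousOn h (uIcc a b)).intervalIntegrable
  have i2 : IntervalIntegrable (fun τ => h τ ^ 2) volume a b :=
    (by rw [hu]; exact hh.pow 2 : ContinuousOn (fun τ => h τ ^ 2) (uIcc a b)).intervalIntegrable
  set m : ℝ := (∫ τ in a..b, h τ) / (b - a) with hm
  have hba : 0 < b - a := by linarith
  have h1 : 0 ≤ ∫ τ in a..b, (h τ - m) ^ 2 :=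
    intervalIntegral.integral_nonneg hab.le fun τ _ => sq_nonneg _
  have e : ∀ τ, (h τ - m) ^ 2 = h τ ^ 2 - 2 * m * h τ + m ^ 2 := by
    intro τ
    ring
  have j1 : IntervalIntegrable (fun τ => h τ ^ 2 - 2 * m * h τ) volume a b :=
    i2.sub (i1.const_mul _)
  simp only [e] at h1
  rw [intervalIntegral.integral_add j1 intervalIntegrable_const,
    intervalIntegral.integral_sub i2 (i1.const_mul _), intervalIntegral.integral_const_mul,
    intervalIntegral.integral_const, smul_eq_mul] at h1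
  have e2 : (∫ τ in a..b, h τ) = m * (b - a) := by
    rw [hm]
    field_simp
  rw [e2] at h1 ⊢
  nlinarith

/-- Lipschitz bound in the mean -/
theorem l2lip {f g : ℝ → ℝ → ℝ} {t1 t2 C : ℝ}
    (hd : ∀ t ∈ Icc t1 t2, ∀ x, HasDerivWithinAt (fun τ => f τ x) (g t x) (Icc t1 t2) t)
    (hg : ContinuousOn (fun p : ℝ × ℝ => g p.1 p.2) (Icc t1 t2 ×ˢ univ))
    (hfm : ∀ t ∈ Icc t1 t2, MemLp (f t) 2) (hgm : ∀ t ∈ Icc t1 t2, MemLp (g t) 2)
    (hC : ∀ t ∈ Icc t1 t2, (∫ x, g t x ^ 2) ≤ C) {s t : ℝ} (hs : s ∈ Icc t1 t2)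
    (ht : t ∈ Icc t1 t2) (hst : s < t) :
    (∫ x, (f t x - f s x) ^ 2) ≤ (t - s) ^ 2 * C := by
  have hC0 : 0 ≤ C := le_trans (integral_nonneg fun x => sq_nonneg _) (hC s hs)
  have hsub : Icc s t ⊆ Icc t1 t2 := Icc_subset_Icc hs.1 ht.2
  have hgx : ∀ x, ContinuousOn (fun τ => g τ x) (Icc s t) := by
    intro x
    have h1 : ContinuousOn (fun τ : ℝ => (τ, x)) (Icc s t) :=
      (continuous_id.prodMk continuous_const).continuousOn
    exact hg.comp h1 fun τ hτ => ⟨hsub hτ, mem_univ _⟩
  have hftc : ∀ x, f t x - f s x = ∫ τ in s..t, g τ x := by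
    intro x
    symm
    refine intervalIntegral.integral_eq_sub_of_hasDerivAt_of_le (f := fun τ => f τ x)
      (f' := fun τ => g τ x) hst.le ?_ ?_ ?_
    · intro τ hτ
      exact ((hd τ (hsub hτ) x).continuousWithinAt).mono hsub
    · intro τ hτ
      refine (hd τ (hsub ⟨hτ.1.le, hτ.2.le⟩) x).hasDerivAt ?_
      exact Icc_mem_nhds (lt_of_le_of_lt hs.1 hτ.1) (lt_of_lt_of_le hτ.2 ht.2)
    · refine ContinuousOn.intervalIntegrable ?_
      rw [uIcc_of_le hst.le]
      exact hgx x
  have hpt : ∀ x, (f t x - f s x) ^ 2 ≤ (t - s) * ∫ τ in s..t, g τ x ^ 2 := by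
    intro x
    rw [hftc x]
    exact cs_time hst (hgx x)
  -- measurability on the product
  have hmeas : AEMeasurable (fun p : ℝ × ℝ => ENNReal.ofReal (g p.1 p.2 ^ 2))
      ((volume.restrict (Ioc s t)).prod volume) := by
    have h1 : ContinuousOn (fun p : ℝ × ℝ => ENNReal.ofReal (g p.1 p.2 ^ 2))
        (Ioc s t ×ˢ univ) := by
      refine ENNReal.continuous_ofReal.comp_continuousOn ?_
      exact ((hg.mono (prod_mono (Ioc_subset_Icc_self.trans hsub) le_rfl)).pow 2)
    have h2 : (volume.restrict (Ioc s t)).prod (volume : Measure ℝ) =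
        ((volume : Measure ℝ).prod (volume : Measure ℝ)).restrict (Ioc s t ×ˢ univ) := by
      rw [← Measure.prod_restrict, Measure.restrict_univ]
    rw [h2]
    exact h1.aemeasurable (measurableSet_Ioc.prod MeasurableSet.univ)
  have hlt : ENNReal.ofReal (∫ x, (f t x - f s x) ^ 2) ≤ ENNReal.ofReal ((t - s) ^ 2 * C) := by
    have hi := ((hfm t ht).sub (hfm s hs)).integrable_sq
    simp only [Pi.sub_apply] at hi
    rw [ofReal_integral_eq_lintegral_ofReal hi (Eventually.of_forall fun x => sq_nonneg _)]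
    calc (∫⁻ x, ENNReal.ofReal ((f t x - f s x) ^ 2))
        ≤ ∫⁻ x, ENNReal.ofReal (t - s) * ∫⁻ τ in Ioc s t, ENNReal.ofReal (g τ x ^ 2) := by
          refine lintegral_mono fun x => ?_
          have i2 : IntegrableOn (fun τ => g τ x ^ 2) (Ioc s t) :=
            (((hgx x).pow 2).integrableOn_Icc).mono_set Ioc_subset_Icc_self
          rw [← ofReal_integral_eq_lintegral_ofReal i2 (Eventually.of_forall fun τ => sq_nonneg _),
            ← ENNReal.ofReal_mul (by linarith)]
          refine ENNReal.ofReal_le_ofReal ?_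
          rw [← intervalIntegral.integral_of_le hst.le]
          exact hpt x
      _ = ENNReal.ofReal (t - s) * ∫⁻ x, ∫⁻ τ in Ioc s t, ENNReal.ofReal (g τ x ^ 2) := by
          rw [lintegral_const_mul' _ _ ENNReal.ofReal_ne_top]
      _ = ENNReal.ofReal (t - s) * ∫⁻ τ in Ioc s t, ∫⁻ x, ENNReal.ofReal (g τ x ^ 2) := by
          rw [lintegral_lintegral_swap]
          exact hmeas.prod_swap
      _ ≤ ENNReal.ofReal (t - s) * ∫⁻ _τ in Ioc s t, ENNReal.ofReal C := by
          refine mul_le_mul_right ?_ _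
          refine setLIntegral_mono' measurableSet_Ioc fun τ hτ => ?_
          have hτ' : τ ∈ Icc t1 t2 := hsub (Ioc_subset_Icc_self hτ)
          rw [← ofReal_integral_eq_lintegral_ofReal (hgm τ hτ').integrable_sq
            (Eventually.of_forall fun x => sq_nonneg _)]
          exact ENNReal.ofReal_le_ofReal (hC τ hτ')
      _ = ENNReal.ofReal ((t - s) ^ 2 * C) := by
          rw [setLIntegral_const, Real.volume_Ioc, ← ENNReal.ofReal_mul hC0,
            ← ENNReal.ofReal_mul (by linarith)]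
          congr 1
          ring
  have h0 : 0 ≤ (t - s) ^ 2 * C := by positivity
  rwa [ENNReal.ofReal_le_ofReal_iff h0] at hlt

theorem C2_hinf {u w : ℝ → ℝ → ℝ} {t1 t2 : ℝ} (hu : HInf u t1 t2) (hw : HInf w t1 t2)
    (hd : HasTimeDeriv u w t1 t2) (k : ℕ) :
    C2 (fun t => iteratedDeriv k (u t)) (Icc t1 t2) := by
  refine ⟨fun t ht => hu.memLp k t ht, fun s hs => ?_⟩
  obtain ⟨C, hC⟩ := hw.bound k
  have hl : ∀ t ∈ Icc t1 t2, (∫ x, (iteratedDeriv k (u t) x - iteratedDeriv k (u s) x) ^ 2)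
      ≤ (t - s) ^ 2 * C := by
    intro t ht
    rcases lt_trichotomy s t with h | h | h
    · exact l2lip (fun t ht x => hd k t ht x) (hw.cont k) (fun t ht => hu.memLp k t ht)
        (fun t ht => hw.memLp k t ht) hC hs ht h
    · rw [h]
      simp
    · have h1 := l2lip (fun t ht x => hd k t ht x) (hw.cont k) (fun t ht => hu.memLp k t ht)
        (fun t ht => hw.memLp k t ht) hC ht hs h
      have e1 : (∫ x, (iteratedDeriv k (u t) x - iteratedDeriv k (u s) x) ^ 2) =
          ∫ x, (iteratedDeriv k (u s) x - iteratedDeriv k (u t) x) ^ 2 := by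
        refine integral_congr_ae (Eventually.of_forall fun x => ?_)
        simp only
        ring
      rw [e1]
      calc _ ≤ (s - t) ^ 2 * C := h1
        _ = (t - s) ^ 2 * C := by ring
  have h2 : Tendsto (fun t : ℝ => (t - s) ^ 2 * C) (𝓝[Icc t1 t2] s) (𝓝 0) := by
    have : Tendsto (fun t : ℝ => (t - s) ^ 2 * C) (𝓝 s) (𝓝 ((s - s) ^ 2 * C)) :=
      (Continuous.tendsto (by fun_prop) s)
    rw [sub_self, zero_pow (by norm_num), zero_mul] at this
    exact this.mono_left nhdsWithin_le_nhds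
  refine squeeze_zero' (Eventually.of_forall fun t => integral_nonneg fun y => sq_nonneg _) ?_ h2
  filter_upwards [self_mem_nhdsWithin] with t ht
  exact hl t ht

/-! ### inner variables -/

theorem comp_sq {h : ℝ → ℝ} {σ l : ℝ} (hl : 0 < l) :
    ∫ y, (Real.sqrt l * h (σ + l * y)) ^ 2 = ∫ x, h x ^ 2 := by
  have e : ∀ y, (Real.sqrt l * h (σ + l * y)) ^ 2 = l * (fun z => h (σ + z) ^ 2) (l * y) := by
    intro y
    simp only
    rw [mul_pow, Real.sq_sqrt hl.le]
  simp only [e]
  rw [integral_const_mul, Measure.integral_comp_mul_left (fun z => h (σ + z) ^ 2) l,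
    integral_add_left_eq_self (fun z => h z ^ 2) σ, smul_eq_mul, abs_of_pos (inv_pos.2 hl)]
  field_simp

theorem comp_mem {h : ℝ → ℝ} {σ l : ℝ} (hl : 0 < l) (hc : Continuous h) (hm : MemLp h 2) :
    MemLp (fun y => Real.sqrt l * h (σ + l * y)) 2 := by
  have hc2 : Continuous (fun y => Real.sqrt l * h (σ + l * y)) := by fun_prop
  rw [memLp_two_iff_integrable_sq hc2.aestronglyMeasurable]
  have h1 : Integrable (fun z => h (σ + z) ^ 2) := hm.integrable_sq.comp_add_left σ
  have h2 : Integrable (fun y => h (σ + l * y) ^ 2) := h1.comp_mul_left' hl.ne'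
  refine (h2.const_mul l).congr (Eventually.of_forall fun y => ?_)
  simp only
  rw [mul_pow, Real.sq_sqrt hl.le]

theorem C2_inn {α : ℝ} {f : ℝ → ℝ → ℝ} {I : Set ℝ} (hf : C2 f I)
    (hc : ∀ t ∈ I, Continuous (f t)) (hl : ∀ t ∈ I, 0 < lam α t)
    (hlc : ContinuousOn (lam α) I) (hsc : ContinuousOn (sig α) I) :
    C2 (inn α f) I := by
  refine ⟨fun t ht => comp_mem (hl t ht) (hc t ht) (hf.mem t ht), fun s hs => ?_⟩
  have hR : Tendsto (fun t => ∫ y, (Real.sqrt (lam α t) * f s (sig α t + lam α t * y)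
      - Real.sqrt (lam α s) * f s (sig α s + lam α s * y)) ^ 2) (𝓝[I] s) (𝓝 0) := by
    refine riesz (F := fun t y => Real.sqrt (lam α t) * f s (sig α t + lam α t * y)) ?_ ?_ hs ?_ ?_
    · intro t
      have := hc s hs
      fun_prop
    · intro t ht
      exact comp_mem (hl t ht) (hc s hs) (hf.mem s hs)
    · intro y
      have h1 : Tendsto (fun t => sig α t + lam α t * y) (𝓝[I] s)
          (𝓝 (sig α s + lam α s * y)) := (hsc s hs).add ((hlc s hs).mul_const y)
      exact ((hlc s hs).sqrt).mul (((hc s hs).tendsto _).comp h1)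
    · intro t ht
      rw [comp_sq (hl t ht), comp_sq (hl s hs)]
  have h := ((hf.lim s hs).const_mul 2).add (hR.const_mul 2)
  rw [mul_zero, add_zero] at h
  refine squeeze_zero' (Eventually.of_forall fun t => integral_nonneg fun y => sq_nonneg _) ?_ h
  filter_upwards [self_mem_nhdsWithin] with t ht
  have m1 : MemLp (fun y => Real.sqrt (lam α t) * (f t (sig α t + lam α t * y)
      - f s (sig α t + lam α t * y))) 2 :=
    comp_mem (h := fun x => f t x - f s x) (hl t ht) ((hc t ht).sub (hc s hs))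
      ((hf.mem t ht).sub (hf.mem s hs))
  have e1 : (∫ x, (f t x - f s x) ^ 2) = ∫ y, (Real.sqrt (lam α t) *
      (f t (sig α t + lam α t * y) - f s (sig α t + lam α t * y))) ^ 2 :=
    (comp_sq (h := fun x => f t x - f s x) (hl t ht)).symm
  have i1 := m1.integrable_sq
  have i2 := ((comp_mem (σ := sig α t) (hl t ht) (hc s hs) (hf.mem s hs)).sub
    (comp_mem (σ := sig α s) (hl s hs) (hc s hs) (hf.mem s hs))).integrable_sq
  simp only [Pi.sub_apply] at i2
  rw [e1, ← integral_const_mul, ← integral_const_mul,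
    ← integral_add (i1.const_mul 2) (i2.const_mul 2)]
  refine integral_mono_of_nonneg (Eventually.of_forall fun y => sq_nonneg _)
    ((i1.const_mul 2).add (i2.const_mul 2)) (Eventually.of_forall fun y => ?_)
  simp only [inn]
  nlinarith [sq_nonneg (Real.sqrt (lam α t) * (f t (sig α t + lam α t * y)
      - f s (sig α t + lam α t * y)) - (Real.sqrt (lam α t) * f s (sig α t + lam α t * y)
      - Real.sqrt (lam α s) * f s (sig α s + lam α s * y)))]

theorem inn_contDiff {α t : ℝ} {u : ℝ → ℝ → ℝ} (hu : ContDiff ℝ (⊤ : ℕ∞) (u t)) :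
    ContDiff ℝ (⊤ : ℕ∞) (inn α u t) := by
  have h1 : ContDiff ℝ (⊤ : ℕ∞) (fun y : ℝ => sig α t + lam α t * y) :=
    contDiff_const.add (contDiff_const.mul contDiff_id)
  exact contDiff_const.mul (hu.comp h1)

theorem inn_deriv {α t : ℝ} {u : ℝ → ℝ → ℝ} (hu : ContDiff ℝ (⊤ : ℕ∞) (u t)) :
    deriv (inn α u t) = fun y => lam α t * inn α (fun t => deriv (u t)) t y := by
  funext y
  have h1 : HasDerivAt (fun y : ℝ => sig α t + lam α t * y) (lam α t) y := by
    simpa using ((hasDerivAt_id y).const_mul (lam α t)).const_add (sig α t)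
  have h2 : HasDerivAt (u t) (deriv (u t) (sig α t + lam α t * y)) (sig α t + lam α t * y) :=
    (hu.differentiable (by simp) _).hasDerivAt
  have h3 := (h2.comp y h1).const_mul (Real.sqrt (lam α t))
  have h4 : HasDerivAt (inn α u t)
      (Real.sqrt (lam α t) * (deriv (u t) (sig α t + lam α t * y) * lam α t)) y := h3
  rw [h4.deriv]
  simp only [inn]
  ring

theorem inn_iter {α t : ℝ} (k : ℕ) : ∀ {u : ℝ → ℝ → ℝ}, ContDiff ℝ (⊤ : ℕ∞) (u t) →
    iteratedDeriv k (inn α u t) =
      fun y => lam α t ^ k * inn α (fun t => iteratedDeriv k (u t)) t y := by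
  induction k with
  | zero =>
    intro u _
    funext y
    simp [iteratedDeriv_zero]
  | succ k ih =>
    intro u hu
    have hu' : ContDiff ℝ (⊤ : ℕ∞) (deriv (u t)) := (contDiff_infty_iff_deriv.1 hu).2
    have h1 := ih (u := fun t => deriv (u t)) hu'
    rw [iteratedDeriv_succ', inn_deriv hu]
    funext y
    rw [iteratedDeriv_const_mul_field, h1]
    simp only [inn, ← iteratedDeriv_succ']
    ring

theorem inn_memLp {α t : ℝ} {u : ℝ → ℝ → ℝ} (hl : 0 < lam α t)
    (hu : ContDiff ℝ (⊤ : ℕ∞) (u t)) (k : ℕ) (hm : MemLp (iteratedDeriv k (u t)) 2) :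
    MemLp (iteratedDeriv k (inn α u t)) 2 := by
  rw [inn_iter k hu]
  exact (comp_mem hl (hu.continuous_iteratedDeriv k (by exact_mod_cast le_top)) hm).const_mul _

theorem isE_iter (hE : S_ECL1) {f : ℝ → ℝ} (hf : IsE f) (k : ℕ) : IsE (iteratedDeriv k f) := by
  obtain ⟨-, -, -, -, -, -, -, -, hd, -⟩ := hE
  induction k with
  | zero => rwa [iteratedDeriv_zero]
  | succ k ih =>
    rw [iteratedDeriv_succ]
    exact hd _ ih

theorem isE_memLp (hE : S_ECL1) {f : ℝ → ℝ} (hf : IsE f) : MemLp f 2 := by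
  obtain ⟨h1, h2, -, -, -, -, -, -, -, -, -, -, -, -, -, h3, -⟩ := hE
  rw [memLp_two_iff_integrable_sq hf.1.continuous.aestronglyMeasurable]
  refine (h3 f f (h2 f (h1 f hf)) hf).congr (Eventually.of_forall fun y => ?_)
  simp only
  ring

/-- Smooth with all derivatives in `L^2`. -/
def LInf (f : ℝ → ℝ) : Prop :=
  ContDiff ℝ (⊤ : ℕ∞) f ∧ ∀ k : ℕ, MemLp (iteratedDeriv k f) 2

theorem LInf.add {f g : ℝ → ℝ} (hf : LInf f) (hg : LInf g) : LInf (fun y => f y + g y) := by
  refine ⟨hf.1.add hg.1, fun k => ?_⟩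
  have e : iteratedDeriv k (fun y => f y + g y) = iteratedDeriv k f + iteratedDeriv k g :=
    funext fun y => iteratedDeriv_fun_add (hf.1.of_le (by exact_mod_cast le_top)).contDiffAt
      (hg.1.of_le (by exact_mod_cast le_top)).contDiffAt
  rw [e]
  exact (hf.2 k).add (hg.2 k)

theorem LInf.smul {f : ℝ → ℝ} (hf : LInf f) (c : ℝ) : LInf (fun y => c * f y) := by
  refine ⟨contDiff_const.mul hf.1, fun k => ?_⟩
  have e : iteratedDeriv k (fun y => c * f y) = fun y => c * iteratedDeriv k f y :=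
    funext fun y => iteratedDeriv_const_mul_field c f
  rw [e]
  exact (hf.2 k).const_mul c

theorem LInf.sub {f g : ℝ → ℝ} (hf : LInf f) (hg : LInf g) : LInf (fun y => f y - g y) := by
  have h := hf.add (hg.smul (-1))
  have e : (fun y => f y - g y) = fun y => f y + -1 * g y := by
    funext y
    ring
  rw [e]
  exact h

theorem isE_LInf (hE : S_ECL1) {f : ℝ → ℝ} (hf : IsE f) : LInf f :=
  ⟨hf.1, fun k => isE_memLp hE (isE_iter hE hf k)⟩

theorem inn_LInf {α t : ℝ} {u : ℝ → ℝ → ℝ} (hl : 0 < lam α t)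
    (hu : ContDiff ℝ (⊤ : ℕ∞) (u t)) (hm : ∀ k, MemLp (iteratedDeriv k (u t)) 2) :
    LInf (inn α u t) :=
  ⟨inn_contDiff hu, fun k => inn_memLp hl hu k (hm k)⟩

/-- a sum of five fixed functions with time dependent coefficients -/
theorem five {I : Set ℝ} {c : Fin 5 → ℝ → ℝ} {g : Fin 5 → ℝ → ℝ} (hc : ∀ i, ContinuousOn (c i) I)
    (hg : ∀ i, MemLp (g i) 2) : C2 (fun t y => ∑ i, c i t * g i y) I := by
  have h : ∀ i, C2 (fun t y => c i t * g i y) I := fun i => (C2.const (hg i)).smul (hc i)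
  refine ((((h 0).add (h 1)).add (h 2)).add (h 3)).add (h 4) |>.congr fun t _ => ?_
  funext y
  simp only [Fin.sum_univ_five]

theorem thm_CONTQ (hQ : S_QF) (hE : S_ECL1) (hC : S_CURVE) (hT : S_TAUB) : S_CONTQ := by
  intro α N0 K T C n Z Y V2 W Wt r r' hα0 hα1 hK hT0 hZ hY hV hBg u t1 t2 h1 h12 h2T hu a b ha hb
  obtain ⟨hcur, -, -⟩ := hC α hα0 hα1
  have hpos : ∀ t ∈ Icc t1 t2, 0 < t := fun t ht => lt_of_lt_of_le h1 ht.1
  have hlam0 : ∀ t ∈ Icc t1 t2, 0 < lam α t := fun t ht => (hcur t (hpos t ht)).2.1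
  have hrho0 : ∀ t ∈ Icc t1 t2, 0 < rho α t := fun t ht => (hcur t (hpos t ht)).2.2.1
  have hsigc : ContinuousOn (sig α) (Icc t1 t2) := fun t ht =>
    (hcur t (hpos t ht)).2.2.2.2.2.1.continuousAt.continuousWithinAt
  have hlamc : ContinuousOn (lam α) (Icc t1 t2) := fun t ht =>
    (hcur t (hpos t ht)).2.2.2.2.2.2.1.continuousAt.continuousWithinAt
  have hrhoc : ContinuousOn (rho α) (Icc t1 t2) := fun t ht =>
    (hcur t (hpos t ht)).2.2.2.2.2.2.2.continuousAt.continuousWithinAt
  obtain ⟨hW, hWt, hWd⟩ := hBg.hinf t1 t2 h1 h12.le h2T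
  have hUt : HInf (fun t x => - deriv (flux (u t)) x) t1 t2 := HInf_wflux hu.hinf
  -- the functions in inner variables
  have cc : ∀ {f : ℝ → ℝ → ℝ}, HInf f t1 t2 → ∀ k : ℕ, ∀ t ∈ Icc t1 t2,
      Continuous (iteratedDeriv k (f t)) := fun hf k t ht =>
    (hf.smooth t ht).continuous_iteratedDeriv k (by exact_mod_cast le_top)
  have hinn : ∀ {f g : ℝ → ℝ → ℝ}, HInf f t1 t2 → HInf g t1 t2 → HasTimeDeriv f g t1 t2 →
      C2 (inn α f) (Icc t1 t2) ∧ C2 (fun t => deriv (inn α f t)) (Icc t1 t2) := by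
    intro f g hf hg hd
    constructor
    · have h := C2_inn (α := α) (C2_hinf hf hg hd 0) (cc hf 0) hlam0 hlamc hsigc
      refine h.congr fun t _ => ?_
      funext y
      simp only [inn, iteratedDeriv_zero]
    · have h := (C2_inn (α := α) (C2_hinf hf hg hd 1) (cc hf 1) hlam0 hlamc hsigc).smul hlamc
      refine h.congr fun t ht => ?_
      rw [inn_deriv (hf.smooth t ht)]
      funext y
      simp only [inn, iteratedDeriv_one]
  obtain ⟨hu0, hu1⟩ := hinn hu.hinf hUt hu.eqn
  obtain ⟨hW0, hW1⟩ := hinn hW hWt hWd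
  -- the fixed functions
  have hTE := (hT α Z Y V2 hZ hY hV).1
  set c : Fin 5 → ℝ → ℝ := ![fun t => a t * (1 - rho α t), fun t => a t * rho α t,
    fun t => b t * (1 - rho α t ^ 2), fun t => b t * ((rho α t + rho α t ^ 2) / 2),
    fun t => b t * ((rho α t ^ 2 - rho α t) / 2)] with hc
  set g : Fin 5 → ℝ → ℝ := ![tauA α Z 0, tauA α Z 1, tauB α Z V2 0, tauB α Z V2 1,
    tauB α Z V2 (-1)] with hg
  have hgE : ∀ i, IsE (g i) := by
    intro i
    fin_cases i
    · exact (hTE 0).1
    · exact (hTE 1).1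
    · exact (hTE 0).2.1
    · exact (hTE 1).2.1
    · exact (hTE (-1)).2.1
  have hcc : ∀ i, ContinuousOn (c i) (Icc t1 t2) := by
    intro i
    fin_cases i
    · exact ha.mul (continuousOn_const.sub hrhoc)
    · exact ha.mul hrhoc
    · exact hb.mul (continuousOn_const.sub (hrhoc.pow 2))
    · exact hb.mul ((hrhoc.add (hrhoc.pow 2)).div_const 2)
    · exact hb.mul (((hrhoc.pow 2).sub hrhoc).div_const 2)
  have heta : ∀ t, etaI α Z V2 u W a b t = fun y => inn α u t y - inn α W t y -
      ∑ i, c i t * g i y := by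
    intro t
    funext y
    rw [Fin.sum_univ_five]
    simp only [hc, hg, etaI, tauA, tauB, Matrix.cons_val]
    ring
  set e : ℝ → ℝ → ℝ := etaI α Z V2 u W a b with he
  have he0 : C2 e (Icc t1 t2) := by
    refine ((hu0.sub hW0).sub (five hcc fun i => isE_memLp hE (hgE i))).congr fun t _ => ?_
    rw [heta]
  have hgd : ∀ i, IsE (deriv (g i)) := by
    intro i
    have := isE_iter hE (hgE i) 1
    rwa [iteratedDeriv_one] at this
  have he1 : C2 (fun t => deriv (e t)) (Icc t1 t2) := by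
    refine ((hu1.sub hW1).sub (five hcc fun i => isE_memLp hE (hgd i))).congr fun t ht => ?_
    rw [heta]
    funext y
    have d1 : HasDerivAt (inn α u t) (deriv (inn α u t) y) y :=
      ((inn_contDiff (hu.hinf.smooth t ht)).differentiable (by simp) y).hasDerivAt
    have d2 : HasDerivAt (inn α W t) (deriv (inn α W t) y) y :=
      ((inn_contDiff (hW.smooth t ht)).differentiable (by simp) y).hasDerivAt
    have d3 : HasDerivAt (fun y => ∑ i, c i t * g i y) (∑ i, c i t * deriv (g i) y) y := by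
      refine HasDerivAt.fun_sum fun i _ => ?_
      exact (((hgE i).1.differentiable (by simp) y).hasDerivAt).const_mul _
    exact ((d1.sub d2).sub d3).deriv
  -- the weight
  have hwd : ∀ t ∈ Icc t1 t2, ∀ y, 1 ≤ 1 + rho α t * Real.exp (-(y / K)) := by
    intro t ht y
    have := mul_nonneg (hrho0 t ht).le (Real.exp_pos (-(y / K))).le
    linarith
  have hw1 : ∀ t ∈ Icc t1 t2, Continuous (fun y => wt K (rho α t) y) := by
    intro t ht
    unfold wt
    refine Continuous.div continuous_const (by fun_prop) fun y => ?_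
    have := hwd t ht y
    linarith
  have hw2 : ∀ t ∈ Icc t1 t2, ∀ y, |wt K (rho α t) y| ≤ 1 := by
    intro t ht y
    have h := hwd t ht y
    unfold wt
    rw [abs_of_nonneg (by positivity), div_le_one (by linarith)]
    exact h
  have hw3 : ∀ s ∈ Icc t1 t2, ∀ y, Tendsto (fun t => wt K (rho α t) y) (𝓝[Icc t1 t2] s)
      (𝓝 (wt K (rho α s) y)) := by
    intro s hs y
    unfold wt
    refine Tendsto.div tendsto_const_nhds (((hrhoc s hs).mul_const _).const_add _) ?_
    have := hwd s hs y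
    linarith
  have we0 := he0.bdd hw1 hw2 hw3
  have we1 := he1.bdd hw1 hw2 hw3
  refine ⟨?_, he0.sq, ?_, fun t ht => ?_⟩
  · refine ((we1.bilin he1).add (we0.bilin he0)).congr fun t ht => ?_
    have i1 : Integrable (fun y => wt K (rho α t) y * deriv (e t) y * deriv (e t) y) :=
      (we1.mem t ht).integrable_mul (he1.mem t ht)
    have i2 : Integrable (fun y => wt K (rho α t) y * e t y * e t y) :=
      (we0.mem t ht).integrable_mul (he0.mem t ht)
    change (∫ y, wt K (rho α t) y * (deriv (e t) y ^ 2 + e t y ^ 2)) =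
      (∫ y, wt K (rho α t) y * deriv (e t) y * deriv (e t) y)
        + ∫ y, wt K (rho α t) y * e t y * e t y
    rw [← integral_add i1 i2]
    refine integral_congr_ae (Eventually.of_forall fun y => ?_)
    simp only
    ring
  · have hTh : C2 (fun t y => Th α Y (rho α t) y) (Icc t1 t2) := by
      have hc1 : ContinuousOn (fun t => 1 - rho α t) (Icc t1 t2) := continuousOn_const.sub hrhoc
      have h0 := (C2.const (I := Icc t1 t2) (isE_memLp hE (hTE 0).2.2)).smul hc1
      have h1 := (C2.const (I := Icc t1 t2) (isE_memLp hE (hTE 1).2.2)).smul hrhoc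
      refine (h0.add h1).congr fun t _ => ?_
      funext y
      simp only [Th]
      ring
    exact he0.bilin hTh
  · have hL : LInf (e t) := by
      rw [heta]
      have hs : LInf (fun y => ∑ i, c i t * g i y) := by
        have h : ∀ i, LInf (fun y => c i t * g i y) := fun i => (isE_LInf hE (hgE i)).smul _
        have h2 := ((((h 0).add (h 1)).add (h 2)).add (h 3)).add (h 4)
        have e2 : (fun y => ∑ i, c i t * g i y) = fun y => c 0 t * g 0 y + c 1 t * g 1 y
            + c 2 t * g 2 y + c 3 t * g 3 y + c 4 t * g 4 y := by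
          funext y
          rw [Fin.sum_univ_five]
        rw [e2]
        exact h2
      exact ((inn_LInf (hlam0 t ht) (hu.hinf.smooth t ht) fun k => hu.hinf.memLp k t ht).sub
        (inn_LInf (hlam0 t ht) (hW.smooth t ht) fun k => hW.memLp k t ht)).sub hs
    exact hL

end Pool.Agent.Helper16.KV
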